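import Pool.Agent.Work.MP_70e905_nt.Alt.AltPairs

set_option autoImplicit false

namespace Pool.Agent.Results.MP_70e905_nt.Alternative

/-- At least one of the following two statements is true.

(P) There are `C, δ > 0` such that among any `N` even numbers at most `C N ^ (2 - δ)` pairs have a
difference `h` which is not equal to `p (n + 1) - p n` for infinitely many `n` (`p n` the sequence
of the primes), and any arithmetic progression of `X` positive even numbers contains at most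
`C X ^ (1 - δ)` such `h`.

(L) For every `A` there is `C` such that for all `x ≥ 1`, `1 ≤ a, a' ≤ A` and `0 ≤ b, b' ≤ A x`
there are `x < z ≤ 2x` and `0 ≤ c, c' ≤ C` with `a z + b + c` and `a' z + b' + c'` both prime. -/
theorem result :
    (∃ C δ : ℝ, 0 < C ∧ 0 < δ ∧
      (∀ S : Finset ℕ, (∀ s ∈ S, Even s) →
        (({q : ℕ × ℕ | q.1 ∈ S ∧ q.2 ∈ S ∧ q.1 < q.2 ∧ ¬ {n : ℕ | Nat.nth Nat.Prime (n + 1) =
          Nat.nth Nat.Prime n + (q.2 - q.1)}.Infinite}.ncard : ℕ) : ℝ) ≤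
            C * (S.card : ℝ) ^ (2 - δ)) ∧
      (∀ r d X : ℕ, Even r → Even d → 0 < r → 0 < d →
        (({j : ℕ | j < X ∧ ¬ {n : ℕ | Nat.nth Nat.Prime (n + 1) =
          Nat.nth Nat.Prime n + (r + j * d)}.Infinite}.ncard : ℕ) : ℝ) ≤ C * (X : ℝ) ^ (1 - δ))) ∨
    (∀ A : ℕ, ∃ C : ℕ, ∀ x a a' b b' : ℕ, 1 ≤ x → 1 ≤ a → a ≤ A → 1 ≤ a' → a' ≤ A →
      b ≤ A * x → b' ≤ A * x →
        ∃ z c c' : ℕ, x < z ∧ z ≤ 2 * x ∧ c ≤ C ∧ c' ≤ C ∧
          (a * z + b + c).Prime ∧ (a' * z + b' + c').Prime) :=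
  PoolAlt.alternative_pairs PoolCL.clusterPlus_three

end Pool.Agent.Results.MP_70e905_nt.Alternative
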