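import Pool.Agent.Work.MP_70e905_nt.Sim.Near
import Pool.Agent.Work.MP_70e905_nt.CL3.All3

set_option autoImplicit false

namespace Pool.Agent.Results.MP_70e905_nt.NearDifferences

/-- Let `k ≥ 0` and `N = (2 * 4 ^ k + 4) / 3` (`N = 4` for `k = 1`, `N = 12` for `k = 2`). There is `C` such
that for all `x 1, ..., x k ≥ 1` and all sequences `0 ≤ h i 0 ≤ ... ≤ h i (N - 1) ≤ x i`, `i = 1, ..., k`, there
are indices `c < d` which work for ALL `i`: there are primes `x i < q < p ≤ C x i` such that `p - q` exceeds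
`h i d - h i c` by at most `C`. -/
theorem result (k : ℕ) : ∃ C : ℕ, ∀ x : Fin k → ℕ, (∀ i, 1 ≤ x i) →
    ∀ h : Fin k → Fin ((2 * 4 ^ k + 4) / 3) → ℕ, (∀ i, Monotone (h i)) → (∀ i c, h i c ≤ x i) →
      ∃ c d : Fin ((2 * 4 ^ k + 4) / 3), c < d ∧ ∀ i, ∃ p q : ℕ, p.Prime ∧ q.Prime ∧ x i < q ∧
        p ≤ C * x i ∧ (h i d : ℤ) - h i c < (p : ℤ) - q ∧ (p : ℤ) - q ≤ (h i d : ℤ) - h i c + C := by
  obtain ⟨C, hC⟩ := PoolSim.near_sim
    (fun N hN => ⟨1 / 4 + 1 / 10 ^ 19, by norm_num, PoolCL.clusterP_all N hN⟩) k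
  have hN : (2 * 4 ^ k + 4) / 3 = PoolSim.KK k + 1 := by
    have := PoolSim.KK_eq k
    omega
  rw [hN]
  refine ⟨C, fun x hx h hm hh => ?_⟩
  obtain ⟨c, d, hcd, hnear⟩ := hC x hx h hm hh
  refine ⟨c, d, hcd, fun i => ?_⟩
  obtain ⟨p, q, hp, hq, hxq, hpC, h1, h2⟩ := hnear i
  exact ⟨p, q, hp, hq, hxq, hpC, by omega, by omega⟩

end Pool.Agent.Results.MP_70e905_nt.NearDifferences
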