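import Pool.Agent.Work.MP_70e905_nt.Pol.Third
import Pool.Agent.Work.MP_70e905_nt.Pol.Final
import Pool.Agent.Work.MP_70e905_nt.Pol.Scale
import Pool.Agent.Work.MP_70e905_nt.CL3.All3

/-!
# A third of the multiples of every even number

Part 1 is uniform in the even number `2 k`: for every `ε > 0` there is `M₀` such that for EVERY `k ≥ 1`
and every `M ≥ M₀` at least `(1/3 - ε) M` of the multiples `2 k, 4 k, ..., 2 M k` are Polignac numbers
(equal to `p (n + 1) - p n` for infinitely many `n`, where `p n` is the sequence of the primes), and for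
every `x ≥ 2 k M` at least `(1/3 - ε) M` of them are differences of two primes in `(x, 4 x]`.

Part 2: for every `k ≥ 1` and `ε > 0` there is `ℓ₀` such that of any `ℓ ≥ ℓ₀` consecutive multiples
`2 k (X + 1), ..., 2 k (X + ℓ)` of `2 k` at least `(1/3 - ε) ℓ` are Polignac numbers.
-/

set_option autoImplicit false

namespace Pool.Agent.Results.MP_70e905_nt.PolignacMultiples

open PoolQ4 PoolPol

theorem admissible_mul {ι : Type} [Fintype ι] (k : ℕ) (h : ι → ℕ)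
    (hadm : Admissible (Finset.univ.image h)) :
    Admissible (Finset.univ.image fun i => k * h i) := by
  classical
  intro p hp
  by_cases hpk : p ∣ k
  · refine ⟨1, fun a ha => ?_⟩
    obtain ⟨i, -, rfl⟩ := Finset.mem_image.1 ha
    intro hd
    have h1 : p ∣ k * h i := Dvd.dvd.mul_right hpk _
    exact hp.one_lt.ne' (Nat.dvd_one.1 ((Nat.dvd_add_left h1).1 hd))
  · obtain ⟨v, hv⟩ := hadm p hp
    refine ⟨k * v, fun a ha => ?_⟩
    obtain ⟨i, -, rfl⟩ := Finset.mem_image.1 ha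
    intro hd
    rw [← Nat.mul_add] at hd
    rcases hp.dvd_mul.1 hd with h1 | h1
    · exact hpk h1
    · exact hv (h i) (Finset.mem_image_of_mem _ (Finset.mem_univ _)) h1

theorem even_dist {ι : Type} [Fintype ι] (h : ι → ℕ)
    (hadm : Admissible (Finset.univ.image h)) (i j : ι) : Even (Nat.dist (h i) (h j)) := by
  classical
  obtain ⟨v, hv⟩ := hadm 2 Nat.prime_two
  have h1 := hv (h i) (Finset.mem_image_of_mem _ (Finset.mem_univ _))
  have h2 := hv (h j) (Finset.mem_image_of_mem _ (Finset.mem_univ _))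
  rw [Nat.even_iff]
  unfold Nat.dist
  omega

theorem cluP_mul {K L : ℕ} {P : ℕ → Prop} (hP : CluP K L P) (k : ℕ) (hk : 1 ≤ k) :
    CluP K L fun m => Even m ∧ P (k * m) := by
  intro h hinj hadm
  obtain ⟨s, t, hst, h1⟩ := hP (fun i => k * h i)
    (fun a b hab => hinj (Nat.eq_of_mul_eq_mul_left (by omega) hab)) (admissible_mul k h hadm)
  refine ⟨s, t, hst, even_dist h hadm s t, ?_⟩
  have h2 : k * Nat.dist (h s) (h t) = Nat.dist (k * h s) (k * h t) := (Nat.dist_mul_left k _ _).symm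
  rw [h2]
  exact h1

theorem cluP_even {K L : ℕ} {P : ℕ → Prop} (hP : CluP K L P) : CluP K L fun m => Even m ∧ P m := by
  intro h hinj hadm
  obtain ⟨s, t, hst, h1⟩ := hP h hinj hadm
  exact ⟨s, t, hst, even_dist h hadm s t, h1⟩

/-- Even numbers and halves. -/
theorem card_even (P : ℕ → Prop) [DecidablePred P] (X ℓ : ℕ) :
    ((Finset.Ioc (2 * X) (2 * X + 2 * ℓ)).filter fun m => Even m ∧ P m).card =
      ((Finset.Ioc X (X + ℓ)).filter fun m => P (2 * m)).card := by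
  symm
  refine Finset.card_bij (fun m _ => 2 * m) ?_ ?_ ?_
  · intro m hm
    rw [Finset.mem_filter, Finset.mem_Ioc] at hm ⊢
    exact ⟨⟨by omega, by omega⟩, even_two_mul m, hm.2⟩
  · intro a _ b _ hab
    omega
  · intro m hm
    rw [Finset.mem_filter, Finset.mem_Ioc] at hm
    obtain ⟨⟨h3, h4⟩, ⟨r, rfl⟩, h5⟩ := hm
    refine ⟨r, ?_, by ring⟩
    rw [Finset.mem_filter, Finset.mem_Ioc]
    refine ⟨⟨by omega, by omega⟩, ?_⟩
    rw [two_mul]
    exact h5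

/-- The uniform part, for predicates. -/
theorem prefix_unif (L : ℕ) (ε : ℝ) (hε : 0 < ε) : ∃ M₀ : ℕ, ∀ P : ℕ → Prop, CluP 3 L P →
    ∀ M : ℕ, M₀ ≤ M → (1 / 3 - ε) * (M : ℝ) ≤
      (({m : ℕ | 1 ≤ m ∧ m ≤ M ∧ P (2 * m)}.ncard : ℕ) : ℝ) := by
  classical
  obtain ⟨ℓ₀, h⟩ := third_unif L (ε / 2) (half_pos hε)
  refine ⟨ℓ₀, fun P hP M hM => ?_⟩
  have h3 := h (fun m => Even m ∧ P m) (cluP_even hP) (2 * M) (by omega)
  have h2 := card_even P 0 M
  rw [Nat.mul_zero, Nat.zero_add, Nat.zero_add] at h2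
  rw [h2] at h3
  have h1 : {m : ℕ | 1 ≤ m ∧ m ≤ M ∧ P (2 * m)} =
      (((Finset.Ioc 0 M).filter fun m => P (2 * m) : Finset ℕ) : Set ℕ) := by
    ext m
    rw [Finset.mem_coe, Finset.mem_filter, Finset.mem_Ioc]
    constructor
    · rintro ⟨h2, h3, h4⟩
      exact ⟨⟨h2, h3⟩, h4⟩
    · rintro ⟨⟨h2, h3⟩, h4⟩
      exact ⟨h2, h3, h4⟩
  rw [h1, Set.ncard_coe_finset]
  have h4 : (1 / 3 - ε) * (M : ℝ) = (1 / 6 - ε / 2) * ((2 * M : ℕ) : ℝ) := by
    push_cast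
    ring
  rw [h4]
  exact h3

theorem result (ε : ℝ) (hε : 0 < ε) :
    (∃ M₀ : ℕ, ∀ k : ℕ, 1 ≤ k → ∀ M : ℕ, M₀ ≤ M →
      (1 / 3 - ε) * (M : ℝ) ≤
        (({m : ℕ | 1 ≤ m ∧ m ≤ M ∧
          {n : ℕ | Nat.nth Nat.Prime (n + 1) = Nat.nth Nat.Prime n + 2 * k * m}.Infinite}.ncard
            : ℕ) : ℝ) ∧
      ∀ x : ℕ, 2 * k * M ≤ x →
        (1 / 3 - ε) * (M : ℝ) ≤
          (({m : ℕ | 1 ≤ m ∧ m ≤ M ∧ ∃ p q : ℕ, p.Prime ∧ q.Prime ∧ x < q ∧ p ≤ 4 * x ∧
            p = q + 2 * k * m}.ncard : ℕ) : ℝ)) ∧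
    ∀ k : ℕ, 1 ≤ k → ∃ ℓ₀ : ℕ, ∀ X ℓ : ℕ, ℓ₀ ≤ ℓ →
      (1 / 3 - ε) * (ℓ : ℝ) ≤
        (({m : ℕ | X < m ∧ m ≤ X + ℓ ∧
          {n : ℕ | Nat.nth Nat.Prime (n + 1) = Nat.nth Nat.Prime n + 2 * k * m}.Infinite}.ncard
            : ℕ) : ℝ) := by
  classical
  obtain ⟨L, _, hL⟩ := PoolPol.cluP_polignac PoolCL.clusterPlus_three
  refine ⟨?_, fun k hk => ?_⟩
  · obtain ⟨L', _, hL'⟩ := PoolPol.scale PoolCL.clusterPlus_three
    obtain ⟨X₀, hX₀⟩ := hL' 2
    obtain ⟨M₁, h₁⟩ := prefix_unif L ε hε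
    obtain ⟨M₂, h₂⟩ := prefix_unif L' ε hε
    refine ⟨max M₁ (max M₂ X₀), fun k hk M hM => ⟨?_, fun x hx => ?_⟩⟩
    · have h3 := h₁ (fun m => PoolPol.Polignac (k * m))
        (cluP_of_cluS (cluS_of_cluP hL k hk)) M (le_trans (le_max_left _ _) hM)
      have h4 : {m : ℕ | 1 ≤ m ∧ m ≤ M ∧ PoolPol.Polignac (k * (2 * m))} = {m : ℕ | 1 ≤ m ∧ m ≤ M ∧
          {n : ℕ | Nat.nth Nat.Prime (n + 1) = Nat.nth Nat.Prime n + 2 * k * m}.Infinite} := by
        ext m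
        have h5 : k * (2 * m) = 2 * k * m := by ring
        rw [Set.mem_setOf_eq, Set.mem_setOf_eq, h5]
        rfl
      rw [h4] at h3
      exact h3
    · have hMX : X₀ ≤ M := le_trans (le_trans (le_max_right _ _) (le_max_right _ _)) hM
      have hMx : M ≤ x := by
        have h5 : 1 * M ≤ 2 * k * M := Nat.mul_le_mul_right M (by omega)
        omega
      have h3 := h₂ (fun m => DPx x ((2 + 2) * x) (k * m) ∨ 2 * M < m)
        (cluP_of_cluS (hX₀ x k (2 * M) (by omega) hk (by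
          have h6 : k * (2 * (2 * M)) = 2 * (2 * k * M) := by ring
          rw [h6]
          exact Nat.mul_le_mul_left 2 hx))) M
        (le_trans (le_trans (le_max_left _ _) (le_max_right _ _)) hM)
      have h4 : {m : ℕ | 1 ≤ m ∧ m ≤ M ∧ (DPx x ((2 + 2) * x) (k * (2 * m)) ∨ 2 * M < 2 * m)} =
          {m : ℕ | 1 ≤ m ∧ m ≤ M ∧ ∃ p q : ℕ, p.Prime ∧ q.Prime ∧ x < q ∧ p ≤ 4 * x ∧
            p = q + 2 * k * m} := by
        ext m
        have h5 : k * (2 * m) = 2 * k * m := by ring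
        rw [Set.mem_setOf_eq, Set.mem_setOf_eq, h5]
        constructor
        · rintro ⟨h6, h7, h8 | h8⟩
          · exact ⟨h6, h7, h8⟩
          · omega
        · rintro ⟨h6, h7, h8⟩
          exact ⟨h6, h7, Or.inl h8⟩
      rw [h4] at h3
      exact h3
  · obtain ⟨ℓ₀, h⟩ := PoolPol.third L (fun m => Even m ∧ PoolPol.Polignac (k * m))
      (cluP_mul hL k hk) (ε / 2) (half_pos hε)
    refine ⟨ℓ₀, fun X ℓ hℓ => ?_⟩
    have h1 : {m : ℕ | X < m ∧ m ≤ X + ℓ ∧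
        {n : ℕ | Nat.nth Nat.Prime (n + 1) = Nat.nth Nat.Prime n + 2 * k * m}.Infinite} =
        (((Finset.Ioc X (X + ℓ)).filter fun m => PoolPol.Polignac (k * (2 * m)) : Finset ℕ) :
          Set ℕ) := by
      ext m
      have h5 : k * (2 * m) = 2 * k * m := by ring
      rw [Finset.mem_coe, Finset.mem_filter, Finset.mem_Ioc, h5]
      constructor
      · rintro ⟨h2, h3, h4⟩
        exact ⟨⟨h2, h3⟩, h4⟩
      · rintro ⟨⟨h2, h3⟩, h4⟩
        exact ⟨h2, h3, h4⟩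
    rw [h1, Set.ncard_coe_finset]
    have h2 := card_even (fun m => PoolPol.Polignac (k * m)) X ℓ
    have h3 := h (2 * X) (2 * ℓ) (by omega)
    rw [h2] at h3
    have h4 : (1 / 3 - ε) * (ℓ : ℝ) = (1 / 6 - ε / 2) * ((2 * ℓ : ℕ) : ℝ) := by
      push_cast
      ring
    rw [h4]
    exact h3

end Pool.Agent.Results.MP_70e905_nt.PolignacMultiples
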