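import Pool.Agent.Work.MP_70e905_nt.PK.F.Main

/-!
# Four multiples of almost all primes

Let `e 0 < e 1 < e 2 < e 3`, `α ≥ 1` and `β` be integers such that for `p = 2, 3` and every `u` prime
to `p` the four numbers `e i * (α u + β)` miss a class modulo `p`. Then for every `ε > 0` and all
large `x` the number of the primes `ℓ ≤ x` for which none of the six numbers
`(e k - e i) (α ℓ + β)` is equal to `p (n + 1) - p n` for infinitely many `n` is at most `ε π(x)`.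
-/

set_option autoImplicit false

namespace Pool.Agent.Results.MP_70e905_nt.PrimeMultiples

open Finset Classical in
theorem result (e : Fin 4 → ℕ) (he : StrictMono e) (α : ℕ) (hα : 0 < α) (β : ℤ)
    (h2 : ∀ u : ℤ, ¬ (2 : ℤ) ∣ u → ∃ r : ℤ, ∀ i, ¬ (2 : ℤ) ∣ r + e i * (α * u + β))
    (h3 : ∀ u : ℤ, ¬ (3 : ℤ) ∣ u → ∃ r : ℤ, ∀ i, ¬ (3 : ℤ) ∣ r + e i * (α * u + β))
    (ε : ℝ) (hε : 0 < ε) : ∃ X₀ : ℕ, ∀ x : ℕ, X₀ ≤ x →
      (((range (x + 1)).filter (fun ℓ : ℕ => ℓ.Prime ∧ ∀ i k : Fin 4, i < k →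
        ¬ {n : ℕ | (Nat.nth Nat.Prime (n + 1) : ℤ) =
          Nat.nth Nat.Prime n + ((e k : ℤ) - e i) * (α * ℓ + β)}.Infinite)).card : ℝ) ≤
        ε * (Nat.primeCounting x : ℝ) :=
  PoolPK.almost e he α hα β h2 h3 ε hε

end Pool.Agent.Results.MP_70e905_nt.PrimeMultiples
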